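import Mathlib

namespace Pool.Agent.Results.MP_35c2f5_co.HighlyConnected

/-- `r a b` says that the arc between `a` and `b` is directed from `a` to `b`. -/
def IsTournament {V : Type} (r : V → V → Prop) : Prop :=
  (∀ a, ¬ r a a) ∧ ∀ a b, a ≠ b → (r a b ↔ ¬ r b a)

/-- The tournament `s` contains a subtournament isomorphic to `r`. -/
def Contains {V W : Type} (s : V → V → Prop) (r : W → W → Prop) : Prop :=
  ∃ f : W → V, Function.Injective f ∧ ∀ a b, r a b ↔ s (f a) (f b)

/-- `s'` arises from `s` by reversing a nonempty locally finite set of arcs. -/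
def IsLocallyFinitePerturbation {V : Type} (s s' : V → V → Prop) : Prop :=
  IsTournament s' ∧ s' ≠ s ∧ ∀ v, {w | ¬ (s v w ↔ s' v w)}.Finite

/-- The tournament stays strongly connected when at most two vertices are deleted: there is no
partition of its remaining vertices into nonempty `A`, `B` with all arcs directed from `A`
to `B`. -/
def IsThreeStrong {V : Type} (r : V → V → Prop) : Prop :=
  ∀ A B : Set V, A.Nonempty → B.Nonempty → Disjoint A B → (A ∪ B)ᶜ.ncard ≤ 2 →
    ∃ a ∈ A, ∃ b ∈ B, r b a

/-- No two vertices are twins: any two vertices are distinguished by a third one. -/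
def IsTwinFree {V : Type} (r : V → V → Prop) : Prop :=
  ∀ a b, a ≠ b → ∃ c, c ≠ a ∧ c ≠ b ∧ ¬ (r c a ↔ r c b)

/-- The subtournament induced on `C`. -/
def sub {V : Type} (r : V → V → Prop) (C : Set V) (a b : C) : Prop := r a b

/-- `C` is an interval in the order of the strong components: every vertex outside `C` comes
before `C` or after `C`, and those which come before dominate those which come after.  For a
tournament whose restriction to `C` is strongly connected this says that `C` is a strong
component. -/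
def IsComponent {V : Type} (r : V → V → Prop) (C : Set V) : Prop :=
  (∀ a, a ∉ C → (∀ c ∈ C, r a c) ∨ (∀ c ∈ C, r c a)) ∧
  ∀ a b, a ∉ C → b ∉ C → (∀ c ∈ C, r a c) → (∀ c ∈ C, r c b) → r a b

open Classical in
/-- Reversal of the arc `x → y`. -/
def rev {V : Type} (r : V → V → Prop) (x y : V) (a b : V) : Prop :=
  if a = x ∧ b = y then False else if a = y ∧ b = x then True else r a b

section Score

variable {V : Type} [Fintype V]

open Classical in
noncomputable def sc (r : V → V → Prop) (a : V) : ℤ := ∑ b, if r a b then 1 else 0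

open Classical in
theorem sc_rev {r : V → V → Prop} (hr : IsTournament r) {x y : V} (hxy : r x y) (a : V) :
    sc (rev r x y) a = sc r a + (if a = y then 1 else 0) - (if a = x then 1 else 0) := by
  classical
  have hne : x ≠ y := by
    rintro rfl
    exact hr.1 _ hxy
  have hyx : ¬ r y x := (hr.2 x y hne).1 hxy
  unfold sc
  have key : ∀ b, (if rev r x y a b then (1 : ℤ) else 0) = (if r a b then 1 else 0) +
      (if a = y then (if b = x then 1 else 0) else 0) -
      (if a = x then (if b = y then 1 else 0) else 0) := by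
    intro b
    unfold rev
    by_cases h1 : a = x
    · subst h1
      have h2 : ¬ a = y := hne
      by_cases h3 : b = y
      · subst h3
        simp [hxy, hne]
      · simp [h2, h3]
    · by_cases h2 : a = y
      · subst h2
        by_cases h3 : b = x
        · subst h3
          simp [hyx, hne.symm]
        · simp [h1, h3]
      · simp [h1, h2]
  rw [Finset.sum_congr rfl (fun b _ => key b), Finset.sum_sub_distrib, Finset.sum_add_distrib]
  congr 1
  · congr 1
    by_cases h : a = y <;> simp [h]
  · by_cases h : a = x <;> simp [h]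

open Classical in
theorem not_iso {r : V → V → Prop} (hr : IsTournament r) {x y : V} (hxy : r x y)
    (hs : sc r x ≠ sc r y + 1) (f : V → V) (hf : Function.Bijective f)
    (hiso : ∀ a b, r a b ↔ rev r x y (f a) (f b)) : False := by
  classical
  have hne : x ≠ y := by
    rintro rfl
    exact hr.1 _ hxy
  have h1 : ∀ a, sc r a = sc (rev r x y) (f a) := by
    intro a
    unfold sc
    refine Fintype.sum_bijective f hf _ _ ?_
    intro b
    simp only [hiso a b]
  have h2 : ∑ a, (sc r a) ^ 2 = ∑ a, (sc (rev r x y) a) ^ 2 := by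
    refine Fintype.sum_bijective f hf _ _ ?_
    intro a
    rw [h1 a]
  have h3 : ∀ a, (sc (rev r x y) a) ^ 2 = (sc r a) ^ 2 +
      (if a = y then 2 * sc r a + 1 else 0) + (if a = x then - 2 * sc r a + 1 else 0) := by
    intro a
    rw [sc_rev hr hxy]
    by_cases h : a = x
    · subst h
      simp only [if_neg hne, if_pos]
      simp
      ring
    · by_cases h' : a = y
      · subst h'
        simp only [if_neg h]
        simp
        ring
      · simp [h, h']
  rw [Finset.sum_congr rfl (fun a _ => h3 a), Finset.sum_add_distrib, Finset.sum_add_distrib]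
    at h2
  simp only [Finset.sum_ite_eq', Finset.mem_univ, if_true] at h2
  apply hs
  linarith

end Score

/-- A fixed point of a causal functional. -/
theorem exists_causal (F : (ℕ → Prop) → ℕ → Prop)
    (hF : ∀ l o o', (∀ i < l, (o i ↔ o' i)) → (F o l ↔ F o' l)) :
    ∃ o : ℕ → Prop, ∀ l, o l ↔ F o l := by
  classical
  let g : ℕ → (ℕ → Prop) := fun l =>
    Nat.rec (fun _ => False) (fun k gk => Function.update gk k (F gk k)) l
  have hg : ∀ l, g (l + 1) = Function.update (g l) l (F (g l) l) := fun l => rfl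
  have hstab : ∀ l m i, i < l → l ≤ m → g m i = g l i := by
    intro l m i hi hlm
    induction m, hlm using Nat.le_induction with
    | base => rfl
    | succ m hm ih =>
      rw [hg m, Function.update_of_ne (by omega), ih]
  refine ⟨fun l => g (l + 1) l, ?_⟩
  intro l
  have h1 : g (l + 1) l = F (g l) l := by
    rw [hg l, Function.update_self]
  show g (l + 1) l ↔ _
  rw [h1]
  apply hF
  intro i hi
  rw [hstab (i + 1) l i (by omega) (by omega)]

section Construction

variable {V : Type} (r : V → V → Prop) (x y : V)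

/-- Vertices other than `x`, `y`. -/
abbrev Rest := {z : V // z ≠ x ∧ z ≠ y}

/-- The vertex set: stage, vertex of the pattern, copy. -/
abbrev Vert := ℕ × Rest x y × ℕ

variable (att : ℕ → Vert x y × Vert x y)

open Classical in
noncomputable def U (o : ℕ → Prop) (l : ℕ) : Vert x y := if o l then (att l).1 else (att l).2

open Classical in
noncomputable def W (o : ℕ → Prop) (l : ℕ) : Vert x y := if o l then (att l).2 else (att l).1

open Classical in
/-- Relation of an older vertex `p` to the new vertices of pattern `z` at stage `l`. -/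
noncomputable def Old (o : ℕ → Prop) (l : ℕ) (p : Vert x y) (z : V) : Prop :=
  if p = U x y att o l then rev r x y y z else if p = W x y att o l then rev r x y x z else True

open Classical in
noncomputable def S (o : ℕ → Prop) (p q : Vert x y) : Prop :=
  if p.1 < q.1 then Old r x y att o q.1 p q.2.1
  else if q.1 < p.1 then ¬ Old r x y att o p.1 q p.2.1
  else if p.2.1 = q.2.1 then p.2.2 < q.2.2 else r p.2.1 q.2.1

variable {r x y att}

theorem S_lt {o : ℕ → Prop} {p q : Vert x y} (h : p.1 < q.1) :
    S r x y att o p q ↔ Old r x y att o q.1 p q.2.1 := by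
  unfold S
  rw [if_pos h]

theorem S_gt {o : ℕ → Prop} {p q : Vert x y} (h : q.1 < p.1) :
    S r x y att o p q ↔ ¬ Old r x y att o p.1 q p.2.1 := by
  unfold S
  rw [if_neg (by omega), if_pos h]

theorem S_eq {o : ℕ → Prop} {p q : Vert x y} (h : p.1 = q.1) (hz : p.2.1 = q.2.1) :
    S r x y att o p q ↔ p.2.2 < q.2.2 := by
  unfold S
  rw [if_neg (by omega), if_neg (by omega), if_pos hz]

theorem S_ne {o : ℕ → Prop} {p q : Vert x y} (h : p.1 = q.1) (hz : p.2.1 ≠ q.2.1) :
    S r x y att o p q ↔ r p.2.1 q.2.1 := by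
  unfold S
  rw [if_neg (by omega), if_neg (by omega), if_neg hz]

theorem S_tournament (hr : IsTournament r) (o : ℕ → Prop) :
    IsTournament (S r x y att o) := by
  constructor
  · intro p h
    rw [S_eq rfl rfl] at h
    exact lt_irrefl _ h
  · intro p q hpq
    rcases lt_trichotomy p.1 q.1 with h | h | h
    · rw [S_lt h, S_gt h, not_not]
    · by_cases hz : p.2.1 = q.2.1
      · rw [S_eq h hz, S_eq h.symm hz.symm]
        have : p.2.2 ≠ q.2.2 := by
          intro e
          exact hpq (Prod.ext h (Prod.ext hz e))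
        omega
      · rw [S_ne h hz, S_ne h.symm (Ne.symm hz)]
        exact hr.2 _ _ (fun e => hz (Subtype.ext e))
    · rw [S_gt h, S_lt h]

theorem S_congr {o o' : ℕ → Prop} {p q : Vert x y} {l : ℕ} (hp : p.1 < l) (hq : q.1 < l)
    (h : ∀ i < l, (o i ↔ o' i)) : S r x y att o p q ↔ S r x y att o' p q := by
  have hU : ∀ i < l, U x y att o i = U x y att o' i := by
    intro i hi
    unfold U
    by_cases h0 : o i
    · rw [if_pos h0, if_pos ((h i hi).1 h0)]
    · rw [if_neg h0, if_neg (fun h1 => h0 ((h i hi).2 h1))]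
  have hW : ∀ i < l, W x y att o i = W x y att o' i := by
    intro i hi
    unfold W
    by_cases h0 : o i
    · rw [if_pos h0, if_pos ((h i hi).1 h0)]
    · rw [if_neg h0, if_neg (fun h1 => h0 ((h i hi).2 h1))]
  unfold S Old
  rw [hU _ hp, hU _ hq, hW _ hp, hW _ hq]

theorem exists_orient : ∃ o : ℕ → Prop, ∀ l, (att l).1.1 < l → (att l).2.1 < l →
    (o l ↔ S r x y att o (att l).1 (att l).2) := by
  obtain ⟨o, ho⟩ := exists_causal
    (fun o l => (att l).1.1 < l ∧ (att l).2.1 < l ∧ S r x y att o (att l).1 (att l).2) (by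
      intro l o o' h
      by_cases h1 : (att l).1.1 < l
      · by_cases h2 : (att l).2.1 < l
        · simp only [h1, h2, true_and]
          exact S_congr h1 h2 h
        · simp [h2]
      · simp [h1])
  refine ⟨o, fun l h1 h2 => ?_⟩
  rw [ho l]
  simp [h1, h2]

theorem S_UW (hr : IsTournament r) {o : ℕ → Prop}
    (ho : ∀ l, (att l).1.1 < l → (att l).2.1 < l → (o l ↔ S r x y att o (att l).1 (att l).2))
    {l : ℕ} (h1 : (U x y att o l).1 < l) (h2 : (W x y att o l).1 < l)
    (hne : U x y att o l ≠ W x y att o l) :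
    S r x y att o (U x y att o l) (W x y att o l) := by
  have hT := S_tournament (x := x) (y := y) (att := att) hr o
  by_cases h : o l
  · simp only [U, W, if_pos h] at h1 h2 ⊢
    exact (ho l h1 h2).1 h
  · simp only [U, W, if_neg h] at h1 h2 hne ⊢
    rw [hT.2 _ _ hne]
    intro h3
    exact h ((ho l h2 h1).2 h3)

end Construction

theorem rev_tournament {V : Type} {r : V → V → Prop} (hr : IsTournament r) {x y : V}
    (hne : x ≠ y) : IsTournament (rev r x y) := by
  constructor
  · intro a h
    unfold rev at h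
    split_ifs at h with h1 h2
    · exact hne (h2.2.symm.trans h2.1)
    · exact hr.1 a h
  · intro a b hab
    unfold rev
    by_cases h1 : a = x ∧ b = y
    · obtain ⟨rfl, rfl⟩ := h1
      simp [Ne.symm hab]
    · by_cases h2 : a = y ∧ b = x
      · obtain ⟨rfl, rfl⟩ := h2
        have : ¬ (a = b ∧ b = a) := fun h => hab h.1
        simp [this]
      · have h3 : ¬ (b = x ∧ a = y) := fun h => h2 ⟨h.2, h.1⟩
        have h4 : ¬ (b = y ∧ a = x) := fun h => h1 ⟨h.2, h.1⟩
        rw [if_neg h1, if_neg h2, if_neg h3, if_neg h4]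
        exact hr.2 a b hab

theorem free {V : Type} [Fintype V] {r : V → V → Prop} (hr : IsTournament r) {C : Set V}
    (h3 : IsThreeStrong (sub r C)) (ht : IsTwinFree (sub r C)) {x y : V} (hxy : r x y)
    {att : ℕ → Vert x y × Vert x y} {o : ℕ → Prop}
    (ho : ∀ l, (att l).1.1 < l → (att l).2.1 < l → (o l ↔ S r x y att o (att l).1 (att l).2))
    (hne0 : C.Nonempty)
    (hrev0 : ∀ ψ : C → V, Function.Injective ψ →
      ¬ (∀ a b, sub r C a b ↔ rev r x y (ψ a) (ψ b))) :
    ¬ Contains (S r x y att o) (sub r C) := by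
  classical
  rintro ⟨f, hf, hfr⟩
  have : Fintype C := Fintype.ofFinite C
  have hneC : Nonempty C := hne0.to_subtype
  have hrC : IsTournament (sub r C) :=
    ⟨fun a => hr.1 a, fun a b hab => hr.2 a b (fun e => hab (Subtype.ext e))⟩
  have hxy' : x ≠ y := by
    rintro rfl
    exact hr.1 _ hxy
  have hrev := rev_tournament hr hxy'
  have hT := S_tournament (x := x) (y := y) (att := att) hr o
  obtain ⟨a0, -, ha0⟩ := Finset.exists_max_image (Finset.univ : Finset C) (fun a => (f a).1)
    ⟨Classical.arbitrary C, Finset.mem_univ _⟩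
  obtain ⟨l, hl⟩ : ∃ l, (f a0).1 = l := ⟨_, rfl⟩
  have hmax : ∀ a, (f a).1 ≤ l := fun a => hl ▸ ha0 a (Finset.mem_univ _)
  set u := U x y att o l with hu
  set w := W x y att o l with hw
  by_cases hA : ∃ a, (f a).1 < l ∧ f a ≠ u ∧ f a ≠ w
  · obtain ⟨a1, ha1⟩ := hA
    obtain ⟨a, ha, b, hb, hba⟩ := h3 {a | (f a).1 < l ∧ f a ≠ u ∧ f a ≠ w} {a | (f a).1 = l}
      ⟨a1, ha1⟩ ⟨a0, hl⟩ (by
        rw [Set.disjoint_left]
        rintro a ⟨h1, -⟩ h2
        have h2' : (f a).1 = l := h2
        omega) (by
        have hsub : ({a | (f a).1 < l ∧ f a ≠ u ∧ f a ≠ w} ∪ {a | (f a).1 = l})ᶜ ⊆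
            f ⁻¹' {u, w} := by
          intro a ha
          simp only [Set.mem_compl_iff, Set.mem_union, Set.mem_ofPred_eq, not_or, not_and,
            not_not] at ha
          simp only [Set.mem_preimage, Set.mem_insert_iff, Set.mem_singleton_iff]
          have h1 := lt_of_le_of_ne (hmax a) ha.2
          by_cases h2 : f a = u
          · exact Or.inl h2
          · exact Or.inr (ha.1 h1 h2)
        refine (Set.ncard_le_ncard hsub (Set.toFinite _)).trans ?_
        rw [← Set.ncard_image_of_injective _ hf]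
        refine (Set.ncard_le_ncard (Set.image_preimage_subset _ _) (Set.toFinite _)).trans ?_
        refine (Set.ncard_insert_le _ _).trans ?_
        rw [Set.ncard_singleton])
    obtain ⟨h4, h5, h6⟩ := ha
    have hb' : (f b).1 = l := hb
    have h7 : sub r C a b := by
      rw [hfr, S_lt (by omega), hb']
      unfold Old
      rw [if_neg h5, if_neg h6]
      trivial
    have hab : a ≠ b := by
      rintro rfl
      omega
    exact (hrC.2 a b hab).1 h7 hba
  · push Not at hA
    have hcases : ∀ a, (f a).1 = l ∨ ((f a).1 < l ∧ f a = u) ∨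
        ((f a).1 < l ∧ f a ≠ u ∧ f a = w) := by
      intro a
      rcases (hmax a).lt_or_eq with h | h
      · by_cases h1 : f a = u
        · exact Or.inr (Or.inl ⟨h, h1⟩)
        · exact Or.inr (Or.inr ⟨h, h1, hA a h h1⟩)
      · exact Or.inl h
    let ψ : C → V := fun a => if (f a).1 = l then ((f a).2.1 : V) else if f a = u then y else x
    have ψ1 : ∀ a, (f a).1 = l → ψ a = (f a).2.1 := fun a h => if_pos h
    have ψ2 : ∀ a, (f a).1 < l → f a = u → ψ a = y := fun a h h' => by
      simp only [ψ]
      rw [if_neg (by omega), if_pos h']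
    have ψ3 : ∀ a, (f a).1 < l → f a ≠ u → ψ a = x := fun a h h' => by
      simp only [ψ]
      rw [if_neg (by omega), if_neg h']
    -- relation to the new vertices
    have hrel : ∀ a b, a ≠ b → ψ a ≠ ψ b → (sub r C a b → rev r x y (ψ a) (ψ b)) := by
      intro a b hab hψ hr'
      rw [hfr] at hr'
      rcases hcases a with ha | ⟨ha, ha'⟩ | ⟨ha, ha', ha''⟩
      · rcases hcases b with hb | ⟨hb, hb'⟩ | ⟨hb, hb', hb''⟩
        · rw [ψ1 a ha, ψ1 b hb] at hψ ⊢
          rw [S_ne (ha.trans hb.symm) (fun e => hψ (by rw [e]))] at hr'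
          unfold rev
          rw [if_neg (fun h => (f a).2.1.2.1 h.1), if_neg (fun h => (f a).2.1.2.2 h.1)]
          exact hr'
        · rw [ψ1 a ha, ψ2 b hb hb'] at hψ ⊢
          rw [S_gt (by omega), ha] at hr'
          unfold Old at hr'
          rw [if_pos hb'] at hr'
          rw [hrev.2 _ _ hψ]
          exact hr'
        · rw [ψ1 a ha, ψ3 b hb hb'] at hψ ⊢
          rw [S_gt (by omega), ha] at hr'
          unfold Old at hr'
          rw [if_neg hb', if_pos hb''] at hr'
          rw [hrev.2 _ _ hψ]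
          exact hr'
      · rcases hcases b with hb | ⟨hb, hb'⟩ | ⟨hb, hb', hb''⟩
        · rw [ψ2 a ha ha', ψ1 b hb] at hψ ⊢
          rw [S_lt (by omega), hb] at hr'
          unfold Old at hr'
          rw [if_pos ha'] at hr'
          exact hr'
        · exact absurd (hf (ha'.trans hb'.symm)) hab
        · rw [ψ2 a ha ha', ψ3 b hb hb']
          unfold rev
          rw [if_neg (fun h => hxy' h.1.symm), if_pos ⟨rfl, rfl⟩]
          trivial
      · rcases hcases b with hb | ⟨hb, hb'⟩ | ⟨hb, hb', hb''⟩
        · rw [ψ3 a ha ha', ψ1 b hb] at hψ ⊢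
          rw [S_lt (by omega), hb] at hr'
          unfold Old at hr'
          rw [if_neg ha', if_pos ha''] at hr'
          exact hr'
        · exfalso
          have hne : u ≠ w := by
            rw [← hb', ← ha'']
            exact fun e => hab (hf e.symm)
          have h8 := S_UW hr ho (l := l) (by rw [← hu, ← hb']; exact hb)
            (by rw [← hw, ← ha'']; exact ha) hne
          rw [← hu, ← hw, ← hb', ← ha''] at h8
          exact (hT.2 _ _ (fun e => hab (hf e.symm))).1 h8 hr'
        · exact absurd (hf (ha''.trans hb''.symm)) hab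
    have hinj : Function.Injective ψ := by
      intro a b hab
      by_contra hne
      -- both lie in the new block with the same pattern vertex
      have hz : ∃ z : Rest x y, ((f a).1 = l ∧ (f a).2.1 = z) ∧ ((f b).1 = l ∧ (f b).2.1 = z) := by
        rcases hcases a with ha | ⟨ha, ha'⟩ | ⟨ha, ha', ha''⟩
        · rcases hcases b with hb | ⟨hb, hb'⟩ | ⟨hb, hb', hb''⟩
          · rw [ψ1 a ha, ψ1 b hb] at hab
            exact ⟨(f a).2.1, ⟨ha, rfl⟩, hb, (Subtype.ext hab).symm⟩
          · rw [ψ1 a ha, ψ2 b hb hb'] at hab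
            exact absurd hab (f a).2.1.2.2
          · rw [ψ1 a ha, ψ3 b hb hb'] at hab
            exact absurd hab (f a).2.1.2.1
        · rcases hcases b with hb | ⟨hb, hb'⟩ | ⟨hb, hb', hb''⟩
          · rw [ψ2 a ha ha', ψ1 b hb] at hab
            exact absurd hab.symm (f b).2.1.2.2
          · exact absurd (hf (ha'.trans hb'.symm)) hne
          · rw [ψ2 a ha ha', ψ3 b hb hb'] at hab
            exact absurd hab.symm hxy'
        · rcases hcases b with hb | ⟨hb, hb'⟩ | ⟨hb, hb', hb''⟩
          · rw [ψ3 a ha ha', ψ1 b hb] at hab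
            exact absurd hab.symm (f b).2.1.2.1
          · rw [ψ3 a ha ha', ψ2 b hb hb'] at hab
            exact absurd hab hxy'
          · exact absurd (hf (ha''.trans hb''.symm)) hne
      obtain ⟨z, hza, hzb⟩ := hz
      let Φ : Finset C := Finset.univ.filter (fun c => (f c).1 = l ∧ (f c).2.1 = z)
      have hΦ : ∀ c, c ∈ Φ ↔ (f c).1 = l ∧ (f c).2.1 = z := fun c => by simp [Φ]
      obtain ⟨a1, ha1, hmin1⟩ := Finset.exists_min_image Φ (fun c => (f c).2.2)
        ⟨a, (hΦ a).2 hza⟩
      have hne2 : (Φ.erase a1).Nonempty := by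
        by_cases e : a1 = a
        · exact ⟨b, Finset.mem_erase.2 ⟨fun e' => hne (e.symm.trans e'.symm), (hΦ b).2 hzb⟩⟩
        · exact ⟨a, Finset.mem_erase.2 ⟨fun e' => e e'.symm, (hΦ a).2 hza⟩⟩
      obtain ⟨b1, hb1, hmin2⟩ := Finset.exists_min_image (Φ.erase a1) (fun c => (f c).2.2) hne2
      obtain ⟨hb1ne, hb1⟩ := Finset.mem_erase.1 hb1
      rw [hΦ] at ha1 hb1
      have hidx : ∀ c d, (f c).1 = l ∧ (f c).2.1 = z → (f d).1 = l ∧ (f d).2.1 = z → c ≠ d →
          (f c).2.2 ≠ (f d).2.2 := by
        rintro c d ⟨h1, h2⟩ ⟨h4, h5⟩ hcd e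
        exact hcd (hf (Prod.ext (h1.trans h4.symm) (Prod.ext (h2.trans h5.symm) e)))
      obtain ⟨c, hca, hcb, hc⟩ := ht a1 b1 hb1ne.symm
      apply hc
      rw [hfr, hfr]
      by_cases hcΦ : (f c).1 = l ∧ (f c).2.1 = z
      · rw [S_eq (hcΦ.1.trans ha1.1.symm) (hcΦ.2.trans ha1.2.symm),
          S_eq (hcΦ.1.trans hb1.1.symm) (hcΦ.2.trans hb1.2.symm)]
        have i1 := hmin1 c ((hΦ c).2 hcΦ)
        have i2 := hmin2 c (Finset.mem_erase.2 ⟨hca, (hΦ c).2 hcΦ⟩)
        constructor <;> intro h <;> omega
      · rcases (hmax c).lt_or_eq with h | h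
        · rw [S_lt (by omega), S_lt (by omega), ha1.1, ha1.2, hb1.1, hb1.2]
        · have hz' : (f c).2.1 ≠ z := fun e => hcΦ ⟨h, e⟩
          rw [S_ne (h.trans ha1.1.symm) (by rw [ha1.2]; exact hz'),
            S_ne (h.trans hb1.1.symm) (by rw [hb1.2]; exact hz'), ha1.2, hb1.2]
    refine hrev0 ψ hinj ?_
    intro a b
    by_cases hab : a = b
    · subst hab
      exact ⟨fun h => absurd h (hrC.1 a), fun h => absurd h (hrev.1 _)⟩
    · have hψ : ψ a ≠ ψ b := fun e => hab (hinj e)
      constructor
      · exact hrel a b hab hψ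
      · intro h
        rw [hrC.2 a b hab]
        intro h'
        exact (hrev.2 _ _ hψ).1 h (hrel b a (Ne.symm hab) hψ.symm h')

theorem rev_out {V : Type} {r : V → V → Prop} {C : Set V} {x y : V} (hx : x ∈ C) (hy : y ∈ C)
    {a b : V} (h : a ∉ C ∨ b ∉ C) : rev r x y a b ↔ r a b := by
  unfold rev
  rw [if_neg, if_neg]
  · rintro ⟨rfl, rfl⟩
    rcases h with h | h
    · exact h hy
    · exact h hx
  · rintro ⟨rfl, rfl⟩
    rcases h with h | h
    · exact h hx
    · exact h hy

theorem no_embed {V : Type} [Fintype V] {r : V → V → Prop} (hr : IsTournament r) {C : Set V}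
    [Fintype C] (hC : IsComponent r C)
    (h3 : IsThreeStrong (sub r C))
    (huniq : ¬ ∃ f : C → V, Function.Injective f ∧ (∀ c, f c ∉ C) ∧
      ∀ a b, sub r C a b ↔ r (f a) (f b))
    {x y : C} (hxy : sub r C x y) (hs : sc (sub r C) x ≠ sc (sub r C) y + 1)
    (ψ : C → V) (hψ : Function.Injective ψ)
    (hiso : ∀ a b, sub r C a b ↔ rev r x y (ψ a) (ψ b)) : False := by
  classical
  have hrC : IsTournament (sub r C) :=
    ⟨fun a => hr.1 a, fun a b hab => hr.2 a b (fun e => hab (Subtype.ext e))⟩
  have hxy' : (x : V) ≠ y := by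
    intro e
    have : r x y := hxy
    rw [e] at this
    exact hr.1 _ this
  have hrev := rev_tournament hr hxy'
  by_cases hall : ∀ a, ψ a ∉ C
  · refine huniq ⟨ψ, hψ, hall, fun a b => ?_⟩
    rw [hiso, rev_out x.2 y.2 (Or.inl (hall a))]
  push Not at hall
  obtain ⟨b0, hb0⟩ := hall
  by_cases hin : ∀ a, ψ a ∈ C
  · refine not_iso hrC hxy hs (fun a => ⟨ψ a, hin a⟩)
      (Finite.injective_iff_bijective.1 (fun a b h => hψ (congrArg Subtype.val h))) ?_
    intro a b
    rw [hiso a b]
    unfold rev
    simp only [Subtype.ext_iff]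
    rfl
  push Not at hin
  obtain ⟨a0, ha0⟩ := hin
  have hcon : ∀ A : Set C, A.Nonempty → Aᶜ.Nonempty →
      (∀ a ∈ A, ∀ b ∈ Aᶜ, rev r x y (ψ a) (ψ b)) → False := by
    intro A hA hB h
    obtain ⟨a, ha, b, hb, hba⟩ := h3 A Aᶜ hA hB disjoint_compl_right (by simp)
    have hab : a ≠ b := by
      rintro rfl
      exact hb ha
    exact (hrev.2 _ _ (fun e => hab (hψ e))).1 (h a ha b hb) ((hiso b a).1 hba)
  by_cases hbef : ∃ a, ψ a ∉ C ∧ ∀ c ∈ C, r (ψ a) c
  · refine hcon {a | ψ a ∉ C ∧ ∀ c ∈ C, r (ψ a) c} hbef ⟨b0, fun h => h.1 hb0⟩ ?_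
    rintro a ⟨ha1, ha2⟩ b hb
    rw [rev_out x.2 y.2 (Or.inl ha1)]
    by_cases hbC : ψ b ∈ C
    · exact ha2 _ hbC
    · rcases hC.1 _ hbC with h | h
      · exact absurd ⟨hbC, h⟩ hb
      · exact hC.2 _ _ ha1 hbC ha2 h
  · push Not at hbef
    refine hcon {a | ψ a ∈ C} ⟨b0, hb0⟩ ⟨a0, ha0⟩ ?_
    intro a ha b hb
    have hb' : ψ b ∉ C := hb
    rw [rev_out x.2 y.2 (Or.inr hb')]
    rcases hC.1 _ hb' with h | h
    · obtain ⟨c, hc1, hc2⟩ := hbef b hb'
      exact absurd (h c hc1) hc2
    · exact h _ ha

theorem perturb {V : Type} [Fintype V] {r : V → V → Prop} (hr : IsTournament r)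
    {x y : V} (hxy : r x y)
    {att : ℕ → Vert x y × Vert x y}
    (hatt : ∀ p q : Vert x y, ∃ l, p.1 < l ∧ q.1 < l ∧ att l = (p, q)) {o : ℕ → Prop}
    (ho : ∀ l, (att l).1.1 < l → (att l).2.1 < l → (o l ↔ S r x y att o (att l).1 (att l).2))
    {s' : Vert x y → Vert x y → Prop}
    (hs' : IsLocallyFinitePerturbation (S r x y att o) s') : Contains s' r := by
  classical
  obtain ⟨hT', hne, hfin⟩ := hs'
  have hxy' : x ≠ y := by
    rintro rfl
    exact hr.1 _ hxy
  have hT := S_tournament (x := x) (y := y) (att := att) hr o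
  -- a reversed arc
  obtain ⟨p, q, hpq, hqp⟩ : ∃ p q, S r x y att o p q ∧ s' q p := by
    by_contra hcon
    push Not at hcon
    apply hne
    funext p q
    apply propext
    by_cases e : p = q
    · subst e
      exact ⟨fun h => absurd h (hT'.1 p), fun h => absurd h (hT.1 p)⟩
    · constructor
      · intro h
        rw [hT.2 p q e]
        intro h'
        exact hcon q p h' h
      · intro h
        rw [hT'.2 p q e]
        exact hcon p q h
  have hpq' : p ≠ q := by
    rintro rfl
    exact hT.1 _ hpq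
  obtain ⟨l, hlp, hlq, hl⟩ := hatt p q
  have hol : o l := by
    rw [ho l (by rw [hl]; exact hlp) (by rw [hl]; exact hlq), hl]
    exact hpq
  have hU : U x y att o l = p := by
    unfold U
    rw [if_pos hol, hl]
  have hW : W x y att o l = q := by
    unfold W
    rw [if_pos hol, hl]
  -- choice of the copies
  have hchoice : ∀ s : Finset (Rest x y), ∃ i : Rest x y → ℕ,
      (∀ z ∈ s, ((S r x y att o p (l, z, i z) ↔ s' p (l, z, i z)) ∧
        (S r x y att o q (l, z, i z) ↔ s' q (l, z, i z)))) ∧
      ∀ z ∈ s, ∀ z' ∈ s, z ≠ z' →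
        (S r x y att o (l, z, i z) (l, z', i z') ↔ s' (l, z, i z) (l, z', i z')) := by
    intro s
    induction s using Finset.induction_on with
    | empty => exact ⟨fun _ => 0, by simp, by simp⟩
    | insert z0 s hz0 ih =>
      obtain ⟨i, hi1, hi2⟩ := ih
      have hbad : ({w | ¬ (S r x y att o p w ↔ s' p w)} ∪ {w | ¬ (S r x y att o q w ↔ s' q w)} ∪
          ⋃ z ∈ s, {w | ¬ (S r x y att o (l, z, i z) w ↔ s' (l, z, i z) w)}).Finite :=
        ((hfin p).union (hfin q)).union
          (Set.Finite.biUnion (Finset.finite_toSet s) (fun z _ => hfin _))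
      have hinf : (Set.range (fun j : ℕ => ((l, z0, j) : Vert x y))).Infinite := by
        apply Set.infinite_range_of_injective
        intro j j' h
        simpa using h
      obtain ⟨w, ⟨j, rfl⟩, hw⟩ := (hinf.sdiff hbad).nonempty
      simp only [Set.mem_union, not_or, Set.mem_iUnion, not_exists] at hw
      obtain ⟨⟨hw1, hw2⟩, hw3⟩ := hw
      have hw1' : S r x y att o p (l, z0, j) ↔ s' p (l, z0, j) := not_not.1 hw1
      have hw2' : S r x y att o q (l, z0, j) ↔ s' q (l, z0, j) := not_not.1 hw2
      have hw3' : ∀ z ∈ s, (S r x y att o (l, z, i z) (l, z0, j) ↔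
          s' (l, z, i z) (l, z0, j)) := fun z hz => not_not.1 (hw3 z hz)
      have hw4' : ∀ z ∈ s, (S r x y att o (l, z0, j) (l, z, i z) ↔
          s' (l, z0, j) (l, z, i z)) := by
        intro z hz
        have hne' : ((l, z0, j) : Vert x y) ≠ (l, z, i z) := by
          intro e
          apply hz0
          have : z0 = z := by
            simpa using congrArg (fun v : Vert x y => v.2.1) e
          rw [this]
          exact hz
        rw [hT.2 _ _ hne', hT'.2 _ _ hne', hw3' z hz]
      have hupd : ∀ z ∈ s, Function.update i z0 j z = i z := fun z hz =>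
        Function.update_of_ne (fun e => hz0 (by rw [← e]; exact hz)) _ _
      refine ⟨Function.update i z0 j, ?_, ?_⟩
      · intro z hz
        rcases Finset.mem_insert.1 hz with rfl | hz
        · rw [Function.update_self]
          exact ⟨hw1', hw2'⟩
        · rw [hupd z hz]
          exact hi1 z hz
      · intro z hz z' hz' hzz
        rcases Finset.mem_insert.1 hz with e | hzs
        · rcases Finset.mem_insert.1 hz' with e' | hzs'
          · exact absurd (e.trans e'.symm) hzz
          · rw [e, Function.update_self, hupd z' hzs']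
            exact hw4' z' hzs'
        · rcases Finset.mem_insert.1 hz' with e' | hzs'
          · rw [e', Function.update_self, hupd z hzs]
            exact hw3' z hzs
          · rw [hupd z hzs, hupd z' hzs']
            exact hi2 z hzs z' hzs' hzz
  obtain ⟨i, hi1, hi2⟩ := hchoice Finset.univ
  let χ : V → Vert x y := fun a =>
    if h : a ≠ x ∧ a ≠ y then (l, ⟨a, h⟩, i ⟨a, h⟩) else if a = y then p else q
  have χz : ∀ z : Rest x y, χ z.1 = (l, z, i z) := fun z => by
    simp only [χ]
    rw [dif_pos z.2]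
  have χy : χ y = p := by
    simp [χ]
  have χx : χ x = q := by
    simp [χ, hxy']
  have hcase : ∀ a : V, a = x ∨ a = y ∨ ∃ z : Rest x y, z.1 = a := by
    intro a
    by_cases h1 : a = x
    · exact Or.inl h1
    · by_cases h2 : a = y
      · exact Or.inr (Or.inl h2)
      · exact Or.inr (Or.inr ⟨⟨a, h1, h2⟩, rfl⟩)
  have hpz : ∀ z : Rest x y, (s' p (l, z, i z) ↔ r y z) := by
    intro z
    rw [← (hi1 z (Finset.mem_univ _)).1, S_lt (show p.1 < l from hlp)]
    show Old r x y att o l p z ↔ _
    unfold Old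
    rw [hU, if_pos rfl]
    unfold rev
    rw [if_neg (fun h => hxy' h.1.symm), if_neg (fun h => z.2.1 h.2)]
  have hqz : ∀ z : Rest x y, (s' q (l, z, i z) ↔ r x z) := by
    intro z
    rw [← (hi1 z (Finset.mem_univ _)).2, S_lt (show q.1 < l from hlq)]
    show Old r x y att o l q z ↔ _
    unfold Old
    rw [hU, hW, if_neg hpq'.symm, if_pos rfl]
    unfold rev
    rw [if_neg (fun h => z.2.2 h.2), if_neg (fun h => hxy' h.1)]
  have hzz : ∀ z z' : Rest x y, z ≠ z' → (s' (l, z, i z) (l, z', i z') ↔ r z z') := by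
    intro z z' h
    rw [← hi2 z (Finset.mem_univ _) z' (Finset.mem_univ _) h]
    exact S_ne (p := (l, z, i z)) (q := (l, z', i z')) rfl h
  have hpl : ∀ z : Rest x y, p ≠ (l, z, i z) := fun z e => by
    have : p.1 = l := by rw [e]
    omega
  have hql : ∀ z : Rest x y, q ≠ (l, z, i z) := fun z e => by
    have : q.1 = l := by rw [e]
    omega
  have hinj : Function.Injective χ := by
    intro a b hab
    rcases hcase a with rfl | rfl | ⟨z, rfl⟩ <;> rcases hcase b with rfl | rfl | ⟨z', rfl⟩
    · rfl
    · rw [χx, χy] at hab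
      exact absurd hab.symm hpq'
    · rw [χx, χz] at hab
      exact absurd hab (hql z')
    · rw [χx, χy] at hab
      exact absurd hab hpq'
    · rfl
    · rw [χy, χz] at hab
      exact absurd hab (hpl z')
    · rw [χx, χz] at hab
      exact absurd hab.symm (hql z)
    · rw [χy, χz] at hab
      exact absurd hab.symm (hpl z)
    · rw [χz, χz] at hab
      have : z = z' := by simpa using congrArg (fun v : Vert x y => v.2.1) hab
      rw [this]
  have hdir : ∀ a b, a ≠ b → r a b → s' (χ a) (χ b) := by
    intro a b hab h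
    rcases hcase a with rfl | rfl | ⟨z, rfl⟩ <;> rcases hcase b with rfl | rfl | ⟨z', rfl⟩
    · exact absurd rfl hab
    · rw [χx, χy]
      exact hqp
    · rw [χx, χz, hqz]
      exact h
    · exact absurd h ((hr.2 _ _ hxy').1 hxy)
    · exact absurd rfl hab
    · rw [χy, χz, hpz]
      exact h
    · rw [χx, χz, hT'.2 _ _ (hql z).symm, hqz]
      exact (hr.2 _ _ hab).1 h
    · rw [χy, χz, hT'.2 _ _ (hpl z).symm, hpz]
      exact (hr.2 _ _ hab).1 h
    · rw [χz, χz, hzz z z' (fun e => hab (by rw [e]))]
      exact h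
  refine ⟨χ, hinj, ?_⟩
  intro a b
  by_cases hab : a = b
  · subst hab
    exact ⟨fun h => absurd h (hr.1 a), fun h => absurd h (hT'.1 _)⟩
  · constructor
    · exact hdir a b hab
    · intro h
      rw [hr.2 a b hab]
      intro h'
      exact (hT'.2 _ _ (fun e => hab (hinj e))).1 h (hdir b a (Ne.symm hab) h')

/-- Q1 holds for every finite tournament with a non-transitive strong component `C` which has no
twins, stays strongly connected when at most two of its vertices are deleted, and has no copy
outside `C`. -/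
theorem result {V : Type} [Finite V] (r : V → V → Prop) (hr : IsTournament r)
    (C : Set V) (hC : IsComponent r C)
    (hnt : ¬ ∀ a b c : C, r a b → r b c → r a c)
    (h3 : IsThreeStrong (sub r C)) (ht : IsTwinFree (sub r C))
    (huniq : ¬ ∃ f : C → V, Function.Injective f ∧ (∀ c, f c ∉ C) ∧
      ∀ a b, sub r C a b ↔ r (f a) (f b)) :
    ∃ (X : Type) (s : X → X → Prop), Countable X ∧ Infinite X ∧ IsTournament s ∧
      ¬ Contains s r ∧ ∀ s' : X → X → Prop, IsLocallyFinitePerturbation s s' → Contains s' r := by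
  classical
  have : Fintype V := Fintype.ofFinite V
  have : Fintype C := Fintype.ofFinite C
  have hrC : IsTournament (sub r C) :=
    ⟨fun a => hr.1 a, fun a b hab => hr.2 a b (fun e => hab (Subtype.ext e))⟩
  push Not at hnt
  obtain ⟨a, b, c, hab, hbc, hac⟩ := hnt
  have hca : r c a := by
    have hne : (c : V) ≠ a := by
      intro e
      have hcb : (c : V) ≠ b := by
        intro e'
        rw [← e, e'] at hab
        exact hr.1 _ hab
      rw [e] at hbc hcb
      exact (hr.2 _ _ hcb).1 hab hbc
    rw [hr.2 _ _ hne]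
    exact hac
  have ne1 : a ≠ b := by
    rintro rfl
    exact hr.1 _ hab
  have ne2 : b ≠ c := by
    rintro rfl
    exact hr.1 _ hbc
  have ne3 : c ≠ a := by
    rintro rfl
    exact hr.1 _ hca
  obtain ⟨x, y, z, hxy, hs, hz1, hz2⟩ : ∃ x y z : C, sub r C x y ∧
      sc (sub r C) x ≠ sc (sub r C) y + 1 ∧ z ≠ x ∧ z ≠ y := by
    by_cases h1 : sc (sub r C) a ≠ sc (sub r C) b + 1
    · exact ⟨a, b, c, hab, h1, ne3, ne2.symm⟩
    · by_cases h2 : sc (sub r C) b ≠ sc (sub r C) c + 1
      · exact ⟨b, c, a, hbc, h2, ne1, ne3.symm⟩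
      · refine ⟨c, a, b, hca, ?_, ne2, ne1.symm⟩
        push Not at h1 h2
        omega
  have : Nonempty (Rest (x : V) (y : V)) :=
    ⟨⟨z, fun e => hz1 (Subtype.ext e), fun e => hz2 (Subtype.ext e)⟩⟩
  have : Countable (Vert (x : V) (y : V)) := inferInstance
  obtain ⟨g, hg⟩ := exists_surjective_nat (Vert (x : V) (y : V) × Vert (x : V) (y : V))
  let att : ℕ → Vert (x : V) (y : V) × Vert (x : V) (y : V) := fun n => g (Nat.unpair n).1
  have hatt : ∀ p q : Vert (x : V) (y : V), ∃ l, p.1 < l ∧ q.1 < l ∧ att l = (p, q) := by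
    intro p q
    obtain ⟨m, hm⟩ := hg (p, q)
    refine ⟨Nat.pair m (p.1 + q.1 + 1), ?_, ?_, ?_⟩
    · have := Nat.right_le_pair m (p.1 + q.1 + 1)
      omega
    · have := Nat.right_le_pair m (p.1 + q.1 + 1)
      omega
    · simp only [att, Nat.unpair_pair]
      exact hm
  obtain ⟨o, ho⟩ := exists_orient (r := r) (x := (x : V)) (y := (y : V)) (att := att)
  have hfree := free hr h3 ht (x := (x : V)) (y := (y : V)) hxy ho ⟨a, a.2⟩
    (fun ψ hψ h => no_embed hr hC h3 huniq hxy hs ψ hψ h)
  refine ⟨Vert (x : V) (y : V), S r x y att o, inferInstance, inferInstance,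
    S_tournament hr o, ?_, fun s' hs' => perturb hr hxy hatt ho hs'⟩
  rintro ⟨f, hf1, hf2⟩
  exact hfree ⟨fun c => f c, fun c d h => Subtype.ext (hf1 h), fun c d => hf2 c d⟩

end Pool.Agent.Results.MP_35c2f5_co.HighlyConnected
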