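import Mathlib

namespace Pool.Agent.Results.MP_35c2f5_co.OneBackwardArc

/-- `r a b` says that the arc between `a` and `b` is directed from `a` to `b`. -/
def IsTournament {V : Type} (r : V → V → Prop) : Prop :=
  (∀ a, ¬ r a a) ∧ ∀ a b, a ≠ b → (r a b ↔ ¬ r b a)

/-- The tournament `s` contains a subtournament isomorphic to `r`. -/
def Contains {V W : Type} (s : V → V → Prop) (r : W → W → Prop) : Prop :=
  ∃ f : W → V, Function.Injective f ∧ ∀ a b, r a b ↔ s (f a) (f b)

/-- `s'` arises from `s` by reversing a nonempty locally finite set of arcs. -/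
def IsLocallyFinitePerturbation {V : Type} (s s' : V → V → Prop) : Prop :=
  IsTournament s' ∧ s' ≠ s ∧ ∀ v, {w | ¬ (s v w ↔ s' v w)}.Finite

/-- The tournament becomes transitive when the arc from `x` to `y` is reversed. -/
def TransitiveAfterReversal {V : Type} (r : V → V → Prop) (x y : V) : Prop :=
  r x y ∧ ∃ s : V → V → Prop, IsTournament s ∧ (∀ a b c, s a b → s b c → s a c) ∧ s y x ∧
    ∀ a b, ¬ (a = x ∧ b = y) → ¬ (a = y ∧ b = x) → (s a b ↔ r a b)

theorem lt_tournament : IsTournament (fun a b : ℚ => a < b) :=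
  ⟨fun a h => lt_irrefl a h, fun a b hab => ⟨fun h => h.le.not_gt, fun h =>
    lt_of_le_of_ne (not_lt.1 h) hab⟩⟩

theorem gap_infinite (lo hi : Finset ℚ) (h : ∀ x ∈ lo, ∀ y ∈ hi, x < y) :
    {m : ℚ | (∀ x ∈ lo, x < m) ∧ ∀ y ∈ hi, m < y}.Infinite := by
  obtain ⟨m, hm1, hm2⟩ := Order.exists_between_finsets lo hi h
  obtain ⟨m2, hm3, hm4⟩ := Order.exists_between_finsets (insert m lo) hi (by
    intro x hx y hy
    rcases Finset.mem_insert.1 hx with rfl | hx
    · exact hm2 y hy
    · exact h x hx y hy)
  refine (Set.Ioo_infinite (hm3 m (Finset.mem_insert_self _ _))).mono ?_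
  rintro t ⟨h1, h2⟩
  exact ⟨fun x hx => (hm1 x hx).trans h1, fun y hy => h2.trans (hm4 y hy)⟩

/-- Every non-transitive tournament on at most four vertices becomes transitive when a suitable
arc is reversed. -/
theorem small {V : Type} [Finite V] {r : V → V → Prop} (hr : IsTournament r)
    (hnt : ¬ ∀ a b c, r a b → r b c → r a c) (hcard : Nat.card V ≤ 4) :
    ∃ x y, TransitiveAfterReversal r x y := by
  classical
  push Not at hnt
  obtain ⟨a, b, c, hab, hbc, hac⟩ := hnt
  have ne1 : a ≠ b := by
    rintro rfl
    exact hr.1 _ hab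
  have ne2 : b ≠ c := by
    rintro rfl
    exact hr.1 _ hbc
  have ne3 : c ≠ a := by
    rintro rfl
    exact (hr.2 _ _ ne2.symm).1 hab hbc
  have hca : r c a := by
    rw [hr.2 _ _ ne3]
    exact hac
  -- linear orders given by rank functions
  have build : ∀ (x y : V) (ρ : V → ℕ), Function.Injective ρ → r x y → ρ y < ρ x →
      (∀ p q, ρ p < ρ q → (r p q ∨ (x = q ∧ y = p))) → TransitiveAfterReversal r x y := by
    intro x y ρ hρ hxy hyx h
    refine ⟨hxy, fun p q => ρ p < ρ q, ⟨fun p hp => lt_irrefl _ hp, fun p q hpq => ?_⟩,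
      fun p q t h1 h2 => lt_trans h1 h2, hyx, ?_⟩
    · have : ρ p ≠ ρ q := fun e => hpq (hρ e)
      constructor <;> intro h' <;> omega
    · intro p q h1 h2
      constructor
      · intro h3
        rcases h p q h3 with h4 | h4
        · exact h4
        · exact absurd ⟨h4.2.symm, h4.1.symm⟩ h2
      · intro h3
        have hpq : p ≠ q := by
          rintro rfl
          exact hr.1 _ h3
        have h5 : ρ p ≠ ρ q := fun e => hpq (hρ e)
        rcases lt_or_gt_of_ne h5 with h6 | h6
        · exact h6
        · rcases h q p h6 with h7 | h7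
          · exact absurd h7 ((hr.2 _ _ hpq).1 h3)
          · exact absurd ⟨h7.1.symm, h7.2.symm⟩ h1
  by_cases hd : ∃ d, d ≠ a ∧ d ≠ b ∧ d ≠ c
  · obtain ⟨d, hda, hdb, hdc⟩ := hd
    have hV : ∀ v : V, v = a ∨ v = b ∨ v = c ∨ v = d := by
      intro v
      by_contra hv
      push Not at hv
      have : Fintype V := Fintype.ofFinite V
      have h5 : ({v, a, b, c, d} : Finset V).card = 5 := by
        rw [Finset.card_insert_of_notMem, Finset.card_insert_of_notMem,
          Finset.card_insert_of_notMem, Finset.card_insert_of_notMem, Finset.card_singleton]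
        · simp [hdc.symm]
        · simp [ne2, hdb.symm]
        · simp [ne1, ne3.symm, hda.symm]
        · simp [hv]
      have h6 := Finset.card_le_univ ({v, a, b, c, d} : Finset V)
      rw [Nat.card_eq_fintype_card] at hcard
      omega
    have four : ∀ (v0 v1 v2 v3 x y : V), v0 ≠ v1 → v0 ≠ v2 → v0 ≠ v3 → v1 ≠ v2 → v1 ≠ v3 →
        v2 ≠ v3 → (∀ v, v = v0 ∨ v = v1 ∨ v = v2 ∨ v = v3) → r x y →
        (r v0 v1 ∨ (x = v1 ∧ y = v0)) → (r v0 v2 ∨ (x = v2 ∧ y = v0)) →
        (r v0 v3 ∨ (x = v3 ∧ y = v0)) → (r v1 v2 ∨ (x = v2 ∧ y = v1)) →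
        (r v1 v3 ∨ (x = v3 ∧ y = v1)) → (r v2 v3 ∨ (x = v3 ∧ y = v2)) →
        ((x = v3 ∧ y = v0) ∨ (x = v2 ∧ y = v0) ∨ (x = v3 ∧ y = v1)) →
        TransitiveAfterReversal r x y := by
      intro v0 v1 v2 v3 x y n01 n02 n03 n12 n13 n23 hv hxy h01 h02 h03 h12 h13 h23 hback
      let ρ : V → ℕ := fun v => if v = v0 then 0 else if v = v1 then 1 else if v = v2 then 2 else 3
      have r0 : ρ v0 = 0 := by simp [ρ]
      have r1 : ρ v1 = 1 := by simp [ρ, n01.symm]
      have r2 : ρ v2 = 2 := by simp [ρ, n02.symm, n12.symm]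
      have r3 : ρ v3 = 3 := by simp [ρ, n03.symm, n13.symm, n23.symm]
      refine build x y ρ ?_ hxy ?_ ?_
      · intro p q hpq
        rcases hv p with rfl | rfl | rfl | rfl <;> rcases hv q with rfl | rfl | rfl | rfl <;>
          first | rfl | (exfalso; omega)
      · rcases hback with ⟨rfl, rfl⟩ | ⟨rfl, rfl⟩ | ⟨rfl, rfl⟩ <;> omega
      · intro p q hpq
        rcases hv p with rfl | rfl | rfl | rfl <;> rcases hv q with rfl | rfl | rfl | rfl <;>
          first | assumption | (exfalso; omega)
    have flip : ∀ {v w : V}, v ≠ w → ¬ r v w → r w v := fun {v w} h h' =>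
      (hr.2 w v h.symm).2 h'
    by_cases ha : r d a <;> by_cases hb : r d b <;> by_cases hc : r d c
    · exact ⟨c, a, four d a b c c a hda hdb hdc ne1 ne3.symm ne2 (fun v => by
        have := hV v; tauto) hca (Or.inl ha) (Or.inl hb) (Or.inl hc) (Or.inl hab)
        (Or.inr ⟨rfl, rfl⟩) (Or.inl hbc) (Or.inr (Or.inr ⟨rfl, rfl⟩))⟩
    · have hc' := flip hdc hc
      exact ⟨b, c, four c d a b b c hdc.symm ne3 ne2.symm hda hdb ne1 (fun v => by
        have := hV v; tauto) hbc (Or.inl hc') (Or.inl hca) (Or.inr ⟨rfl, rfl⟩) (Or.inl ha)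
        (Or.inl hb) (Or.inl hab) (Or.inl ⟨rfl, rfl⟩)⟩
    · have hb' := flip hdb hb
      exact ⟨a, b, four b d c a a b hdb.symm ne2 ne1.symm hdc hda ne3 (fun v => by
        have := hV v; tauto) hab (Or.inl hb') (Or.inl hbc) (Or.inr ⟨rfl, rfl⟩) (Or.inl hc)
        (Or.inl ha) (Or.inl hca) (Or.inl ⟨rfl, rfl⟩)⟩
    · have hb' := flip hdb hb
      have hc' := flip hdc hc
      exact ⟨a, b, four b c d a a b ne2 hdb.symm ne1.symm hdc.symm ne3 hda (fun v => by
        have := hV v; tauto) hab (Or.inl hbc) (Or.inl hb') (Or.inr ⟨rfl, rfl⟩) (Or.inl hc')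
        (Or.inl hca) (Or.inl ha) (Or.inl ⟨rfl, rfl⟩)⟩
    · have ha' := flip hda ha
      exact ⟨c, a, four a d b c c a hda.symm ne1 ne3.symm hdb hdc ne2 (fun v => by
        have := hV v; tauto) hca (Or.inl ha') (Or.inl hab) (Or.inr ⟨rfl, rfl⟩) (Or.inl hb)
        (Or.inl hc) (Or.inl hbc) (Or.inl ⟨rfl, rfl⟩)⟩
    · have ha' := flip hda ha
      have hc' := flip hdc hc
      exact ⟨b, c, four c a d b b c ne3 hdc.symm ne2.symm hda.symm ne1 hdb (fun v => by
        have := hV v; tauto) hbc (Or.inl hca) (Or.inl hc') (Or.inr ⟨rfl, rfl⟩) (Or.inl ha')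
        (Or.inl hab) (Or.inl hb) (Or.inl ⟨rfl, rfl⟩)⟩
    · have ha' := flip hda ha
      have hb' := flip hdb hb
      exact ⟨c, a, four a b d c c a ne1 hda.symm ne3.symm hdb.symm ne2 hdc (fun v => by
        have := hV v; tauto) hca (Or.inl hab) (Or.inl ha') (Or.inr ⟨rfl, rfl⟩) (Or.inl hb')
        (Or.inl hbc) (Or.inl hc) (Or.inl ⟨rfl, rfl⟩)⟩
    · have ha' := flip hda ha
      have hb' := flip hdb hb
      have hc' := flip hdc hc
      exact ⟨c, a, four a b c d c a ne1 ne3.symm hda.symm ne2 hdb.symm hdc.symm (fun v => by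
        have := hV v; tauto) hca (Or.inl hab) (Or.inr ⟨rfl, rfl⟩) (Or.inl ha') (Or.inl hbc)
        (Or.inl hb') (Or.inl hc') (Or.inr (Or.inl ⟨rfl, rfl⟩))⟩
  · push Not at hd
    have hV : ∀ v : V, v = a ∨ v = b ∨ v = c := by
      intro v
      by_contra hv
      push Not at hv
      exact hv.2.2 (hd v hv.1 hv.2.1)
    let ρ : V → ℕ := fun v => if v = a then 0 else if v = b then 1 else 2
    have r0 : ρ a = 0 := by simp [ρ]
    have r1 : ρ b = 1 := by simp [ρ, ne1.symm]
    have r2 : ρ c = 2 := by simp [ρ, ne3, ne2.symm]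
    refine ⟨c, a, build c a ρ ?_ hca (by omega) ?_⟩
    · intro p q hpq
      rcases hV p with rfl | rfl | rfl <;> rcases hV q with rfl | rfl | rfl <;>
        first | rfl | (exfalso; omega)
    · intro p q hpq
      rcases hV p with rfl | rfl | rfl <;> rcases hV q with rfl | rfl | rfl <;>
        first | (exfalso; omega) | exact Or.inl hab | exact Or.inl hbc | exact Or.inr ⟨rfl, rfl⟩

/-- Q1 holds, with the tournament given by the order of the rationals, for every finite
non-transitive tournament which becomes transitive when a suitable arc is reversed, and hence for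
every non-transitive tournament on at most four vertices. -/
theorem result {V : Type} [Finite V] (r : V → V → Prop) (hr : IsTournament r)
    (hnt : ¬ ∀ a b c, r a b → r b c → r a c)
    (h : (∃ x y, TransitiveAfterReversal r x y) ∨ Nat.card V ≤ 4) :
    ¬ Contains (fun a b : ℚ => a < b) r ∧
      ∀ s' : ℚ → ℚ → Prop, IsLocallyFinitePerturbation (fun a b : ℚ => a < b) s' →
        Contains s' r := by
  classical
  have : Fintype V := Fintype.ofFinite V
  obtain ⟨x, y, hxy, s, hs, htr, hyx, hsr⟩ : ∃ x y, TransitiveAfterReversal r x y := by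
    rcases h with h | h
    · exact h
    · exact small hr hnt h
  have hne : x ≠ y := by
    rintro rfl
    exact hr.1 _ hxy
  constructor
  · rintro ⟨f, -, hf⟩
    apply hnt
    intro a b c hab hbc
    rw [hf] at hab hbc ⊢
    exact lt_trans hab hbc
  · rintro s' ⟨hT', hne', hfin⟩
    obtain ⟨p, q, hpq, hqp⟩ : ∃ p q : ℚ, p < q ∧ s' q p := by
      by_contra hcon
      push Not at hcon
      apply hne'
      funext p q
      apply propext
      by_cases e : p = q
      · subst e
        exact ⟨fun h => absurd h (hT'.1 p), fun h => absurd h (lt_irrefl p)⟩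
      · constructor
        · intro h1
          rcases lt_or_gt_of_ne e with h2 | h2
          · exact h2
          · exact absurd h1 (hcon q p h2)
        · intro h1
          rw [hT'.2 p q e]
          exact hcon p q h1
    have hpq' : p ≠ q := hpq.ne
    have hchoice : ∀ F : Finset V, x ∉ F → y ∉ F → ∃ g : V → ℚ, g y = p ∧ g x = q ∧
        (∀ a ∈ insert x (insert y F), ∀ b ∈ insert x (insert y F), s a b → g a < g b) ∧
        (∀ a ∈ insert x (insert y F), ∀ b ∈ insert x (insert y F), s a b →
          ¬ (a = y ∧ b = x) → s' (g a) (g b)) := by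
      intro F
      induction F using Finset.induction_on with
      | empty =>
        intro _ _
        refine ⟨fun a => if a = y then p else q, by simp, by simp [hne], ?_, ?_⟩
        · intro a ha b hb hab
          simp only [insert_empty_eq, Finset.mem_insert, Finset.mem_singleton] at ha hb
          rcases ha with rfl | rfl <;> rcases hb with rfl | rfl
          · exact absurd hab (hs.1 _)
          · exact absurd hyx ((hs.2 _ _ hne).1 hab)
          · simpa [hne] using hpq
          · exact absurd hab (hs.1 _)
        · intro a ha b hb hab hn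
          simp only [insert_empty_eq, Finset.mem_insert, Finset.mem_singleton] at ha hb
          rcases ha with rfl | rfl <;> rcases hb with rfl | rfl
          · exact absurd hab (hs.1 _)
          · exact absurd hyx ((hs.2 _ _ hne).1 hab)
          · exact absurd ⟨rfl, rfl⟩ hn
          · exact absurd hab (hs.1 _)
      | insert z F hz ih =>
        intro hxF hyF
        have hzx : z ≠ x := fun e => hxF (by rw [← e]; exact Finset.mem_insert_self _ _)
        have hzy : z ≠ y := fun e => hyF (by rw [← e]; exact Finset.mem_insert_self _ _)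
        obtain ⟨g, hgy, hgx, hg1, hg2⟩ := ih (fun e => hxF (Finset.mem_insert_of_mem e))
          (fun e => hyF (Finset.mem_insert_of_mem e))
        let D := insert x (insert y F)
        have hzD : z ∉ D := by
          simp only [D, Finset.mem_insert, not_or]
          exact ⟨hzx, hzy, hz⟩
        have hgap := gap_infinite ((D.filter (fun a => s a z)).image g)
          ((D.filter (fun a => s z a)).image g) (by
            intro l hl u hu
            obtain ⟨a, ha, rfl⟩ := Finset.mem_image.1 hl
            obtain ⟨b, hb, rfl⟩ := Finset.mem_image.1 hu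
            rw [Finset.mem_filter] at ha hb
            exact hg1 a ha.1 b hb.1 (htr _ _ _ ha.2 hb.2))
        have hbad : (⋃ a ∈ D, {w | ¬ (g a < w ↔ s' (g a) w)}).Finite :=
          Set.Finite.biUnion (Finset.finite_toSet D) (fun a _ => hfin _)
        obtain ⟨t, ⟨ht1, ht2⟩, ht3⟩ := (hgap.sdiff hbad).nonempty
        simp only [Set.mem_iUnion, not_exists] at ht3
        have ht3' : ∀ a ∈ D, (g a < t ↔ s' (g a) t) := fun a ha => not_not.1 (ht3 a ha)
        have hlo : ∀ a ∈ D, s a z → g a < t := fun a ha h =>
          ht1 _ (Finset.mem_image.2 ⟨a, Finset.mem_filter.2 ⟨ha, h⟩, rfl⟩)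
        have hhi : ∀ a ∈ D, s z a → t < g a := fun a ha h =>
          ht2 _ (Finset.mem_image.2 ⟨a, Finset.mem_filter.2 ⟨ha, h⟩, rfl⟩)
        have hupd : ∀ a ∈ D, Function.update g z t a = g a := fun a ha =>
          Function.update_of_ne (fun e => hzD (by rw [← e]; exact ha)) _ _
        have hmemD : ∀ a ∈ insert x (insert y (insert z F)), a = z ∨ a ∈ D := by
          intro a ha
          simp only [D, Finset.mem_insert] at ha ⊢
          tauto
        refine ⟨Function.update g z t, ?_, ?_, ?_, ?_⟩
        · rw [Function.update_of_ne hzy.symm, hgy]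
        · rw [Function.update_of_ne hzx.symm, hgx]
        · intro a ha b hb hab
          rcases hmemD a ha with e | ha'
          · rcases hmemD b hb with e' | hb'
            · rw [e, e'] at hab
              exact absurd hab (hs.1 _)
            · rw [e] at hab ⊢
              rw [Function.update_self, hupd b hb']
              exact hhi b hb' hab
          · rcases hmemD b hb with e' | hb'
            · rw [e'] at hab ⊢
              rw [Function.update_self, hupd a ha']
              exact hlo a ha' hab
            · rw [hupd a ha', hupd b hb']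
              exact hg1 a ha' b hb' hab
        · intro a ha b hb hab hn
          rcases hmemD a ha with e | ha'
          · rcases hmemD b hb with e' | hb'
            · rw [e, e'] at hab
              exact absurd hab (hs.1 _)
            · rw [e] at hab ⊢
              rw [Function.update_self, hupd b hb']
              have h1 := hhi b hb' hab
              rw [hT'.2 _ _ h1.ne, ← ht3' b hb']
              exact h1.le.not_gt
          · rcases hmemD b hb with e' | hb'
            · rw [e'] at hab ⊢
              rw [Function.update_self, hupd a ha', ← ht3' a ha']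
              exact hlo a ha' hab
            · rw [hupd a ha', hupd b hb']
              exact hg2 a ha' b hb' hab hn
    obtain ⟨g, hgy, hgx, hg1, hg2⟩ := hchoice ((Finset.univ.erase x).erase y) (by simp) (by simp)
    have hall : ∀ a : V, a ∈ insert x (insert y ((Finset.univ.erase x).erase y)) := by
      intro a
      simp only [Finset.mem_insert, Finset.mem_erase, Finset.mem_univ, and_true]
      tauto
    have hinj : Function.Injective g := by
      intro a b hab
      by_contra hne2
      by_cases h1 : s a b
      · exact absurd hab (hg1 a (hall a) b (hall b) h1).ne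
      · exact absurd hab.symm (hg1 b (hall b) a (hall a) (by
          rw [hs.2 _ _ (Ne.symm hne2)]
          exact h1)).ne
    have hdir : ∀ a b, r a b → s' (g a) (g b) := by
      intro a b hab
      have hab' : a ≠ b := by
        rintro rfl
        exact hr.1 _ hab
      by_cases h1 : a = x ∧ b = y
      · obtain ⟨rfl, rfl⟩ := h1
        rw [hgx, hgy]
        exact hqp
      · by_cases h2 : a = y ∧ b = x
        · obtain ⟨rfl, rfl⟩ := h2
          exact absurd hxy ((hr.2 _ _ hab').1 hab)
        · exact hg2 a (hall a) b (hall b) ((hsr a b h1 h2).2 hab) h2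
    refine ⟨g, hinj, fun a b => ⟨hdir a b, ?_⟩⟩
    intro h1
    have hab' : a ≠ b := by
      rintro rfl
      exact hT'.1 _ h1
    rw [hr.2 a b hab']
    intro h2
    exact (hT'.2 _ _ (fun e => hab' (hinj e))).1 h1 (hdir b a h2)

end Pool.Agent.Results.MP_35c2f5_co.OneBackwardArc
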